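import Pool.Agent.R811.Abc.Defs

set_option autoImplicit false

/-!
Arborescent links: links of weighted plane trees, with arbitrary 2-tangles inserted.
-/

namespace Pool.Agent.N569.AB

open LaurentPolynomial Pool.Agent.H891R2.Jones Pool.Agent.H891R2.MT Pool.Agent.H891R2.RF
open Pool.Agent.R811.Abc

/-- the tangle which consists of one crossing (of the two kinds): for `s = true` the under-strand
joins the lower left with the upper right corner, for `s = false` it joins the lower right with the
upper left corner -/
def cross (s : Bool) : Outer4 where
  P := Bool × Bool
  arcs := []
  crossings := [if s then ((false, false), (false, true), (true, true), (true, false))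
    else ((false, true), (true, true), (true, false), (false, false))]
  corner := fun t r => (t, r)

/-- the sum of two tangles: `S` at the left, `R` at the right, the right ends of `S` are joined with
the left ends of `R` -/
def hsum (S R : Outer4) : Outer4 where
  P := S.P ⊕ R.P
  arcs := (S.arcs.map (Prod.map .inl .inl) ++ R.arcs.map (Prod.map .inr .inr)) ++
    [(.inl (S.corner false true), .inr (R.corner false false)),
      (.inl (S.corner true true), .inr (R.corner true false))]
  crossings := S.crossings.map (Prod.map .inl (Prod.map .inl (Prod.map .inl .inl))) ++
    R.crossings.map (Prod.map .inr (Prod.map .inr (Prod.map .inr .inr)))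
  corner := fun t r => if r then .inr (R.corner t true) else .inl (S.corner t false)

/-- the tangle is turned counterclockwise by a quarter of a full turn: the upper left end becomes the
lower left end, the lower left end becomes the lower right end, and so on -/
def rot (S : Outer4) : Outer4 where
  P := S.P
  arcs := S.arcs
  crossings := S.crossings
  corner := fun t r => S.corner (!r) t

/-- a row of `n` crossings of the kind `s` (for `n = 0`: two horizontal strands) -/
def rowN (s : Bool) : ℕ → Outer4
  | 0 => plain
  | n + 1 => hsum (rowN s n) (cross s)

/-- a row of `|a|` crossings of the kind given by the sign of `a` -/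
def row (a : ℤ) : Outer4 := rowN (decide (0 ≤ a)) a.natAbs

/-- Weighted plane rooted trees, some subtrees of which may be replaced by arbitrary tangles:
`row a` is a vertex of weight `a` without children; `graft v c` is the tree `v` with one more child
of the root, at the right of all others, namely the root of the tree `c`; `insert v S τ` is `v`
with a tangle `S` in the place of one more subtree (`τ` is only used in the definition of `deg`). -/
inductive Tree : Type 1
  | row (a : ℤ) : Tree
  | graft (v c : Tree) : Tree
  | insert (v : Tree) (S : Outer4) (τ : Bool) : Tree

namespace Tree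

/-- the tangle of a weighted tree: the sum of a row of `|a|` crossings (`a` the weight of the root)
and of the tangles of all children, each of them turned by a quarter of a full turn -/
def tangle : Tree → Outer4
  | .row a => AB.row a
  | .graft v c => hsum (tangle v) (rot (tangle c))
  | .insert v S _ => hsum (tangle v) S

/-- the (arborescent) link of the tree: the two upper ends and the two lower ends of its tangle are
joined -/
def link (t : Tree) : UDiagram t.tangle.P := t.tangle.close false

/-- the weight of the root plus the number of the children `c` with `deg c < 0` (plus the number of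
the inserted tangles with `τ = true`) -/
def deg : Tree → ℤ
  | .row a => a
  | .graft v c => deg v + if deg c < 0 then 1 else 0
  | .insert v _ τ => deg v + if τ then 1 else 0

/-- the number of children of the root (inserted tangles included) -/
def kids : Tree → ℕ
  | .row _ => 0
  | .graft v _ => kids v + 1
  | .insert v _ _ => kids v + 1

end Tree

/-- all exponents of `p` are at least `k` -/
def Van (k : ℤ) (p : ℤ[T;T⁻¹]) : Prop := ∀ j, p.coeff j ≠ 0 → k ≤ j

/-- `p = a A^m + b A^(m+4) + c A^(m+8) +` terms of degree at least `m + 12` -/
def E (p : ℤ[T;T⁻¹]) (m a b c : ℤ) : Prop :=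
  Van (m + 12) (p - T m * (C a + C b * T 4 + C c * T 8))

/-- A condition for the tangles which may be inserted: `x` and `y` are the coefficient `α` of the
two horizontal strands in the bracket of the tangle and the bracket `α + d β` of the vertical
closure. They have extreme terms `u A^m (1 + b A^4 + ⋯)` and
`(-1)^τ u A^(m-4τ) (1 + b' A^4 + c' A^8 + ⋯)`, `u = ± 1`, with `b ≤ -1`, `b' ≤ 0`, and `b = -1`,
`c' = 1` in the case `b' = 0`. -/
def Kid (τ : Bool) (x y : ℤ[T;T⁻¹]) : Prop :=
  ∃ m u b c b' c' : ℤ, (u = 1 ∨ u = -1) ∧ E x m u (u * b) (u * c) ∧
    E y (m - if τ then 4 else 0) ((if τ then -1 else 1) * u) ((if τ then -1 else 1) * u * b')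
      ((if τ then -1 else 1) * u * c') ∧
    b ≤ -1 ∧ b' ≤ 0 ∧ (b' = 0 → b = -1 ∧ c' = 1)

namespace Tree

/-- The tree is regular (at one of the two ends of the Jones polynomial): for every vertex `c`
different from the root `deg c` is neither `0` nor `1`, and `c` is not a leaf of weight `-1` (such
a leaf can be removed by adding `1` to the weight of its parent); the inserted tangles satisfy
`Kid`. -/
def Regular : Tree → Prop
  | .row _ => True
  | .graft v c => Regular v ∧ Regular c ∧ (2 ≤ deg c ∨ (deg c ≤ -1 ∧ (1 ≤ kids c ∨ deg c ≤ -2)))
  | .insert v S τ => Regular v ∧ IsTangle S ∧ Kid τ (alpha S) (brV S)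

/-- the condition at the root: `deg t ≠ 1`; for `deg t = 0` at least two children; the tree does not
consist of one vertex of weight `-1` -/
def RootOk (t : Tree) : Prop :=
  2 ≤ deg t ∨ (deg t = 0 ∧ 2 ≤ kids t) ∨ (deg t ≤ -1 ∧ (1 ≤ kids t ∨ deg t ≤ -2))

end Tree

end Pool.Agent.N569.AB
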