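import Pool.Agent.N569.AB.Defs
import Pool.Agent.H891R2.DS.D10

set_option autoImplicit false

namespace Pool.Agent.N569.AB

open Finset LaurentPolynomial Pool.Agent.H891R2.Jones Pool.Agent.H891R2.MT Pool.Agent.H891R2.RF
open Pool.Agent.H891R2.DS (D10.coeff_mul_T)

theorem coeff_T_mul (f : ℤ[T;T⁻¹]) (m a : ℤ) : (T m * f).coeff a = f.coeff (a - m) := by
  rw [mul_comm, Pool.Agent.H891R2.DS.D10.coeff_mul_T]

theorem Van.mono {k l : ℤ} {p : ℤ[T;T⁻¹]} (h : Van l p) (hk : k ≤ l) : Van k p :=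
  fun j hj => hk.trans (h j hj)

theorem Van.zero {k : ℤ} : Van k 0 := fun j hj => absurd rfl hj

theorem Van.add {f g : ℤ[T;T⁻¹]} {k : ℤ} (hf : Van k f) (hg : Van k g) : Van k (f + g) := by
  intro j hj
  by_cases h : f.coeff j = 0
  · apply hg j
    intro h'
    apply hj
    rw [AddMonoidAlgebra.coeff_add, Finsupp.add_apply, h, h', add_zero]
  · exact hf j h

theorem Van.neg {f : ℤ[T;T⁻¹]} {k : ℤ} (hf : Van k f) : Van k (-f) := by
  intro j hj
  apply hf j
  intro h
  apply hj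
  rw [AddMonoidAlgebra.coeff_neg, Finsupp.neg_apply, h, neg_zero]

theorem Van.sub {f g : ℤ[T;T⁻¹]} {k : ℤ} (hf : Van k f) (hg : Van k g) : Van k (f - g) := by
  rw [sub_eq_add_neg]
  exact hf.add hg.neg

theorem Van.mul {f g : ℤ[T;T⁻¹]} {k l : ℤ} (hf : Van k f) (hg : Van l g) : Van (k + l) (f * g) := by
  classical
  intro j hj
  have h1 : j ∈ (f * g).coeff.support := Finsupp.mem_support_iff.mpr hj
  have h2 := AddMonoidAlgebra.support_coeff_mul_subset f g h1
  rw [Finset.mem_add] at h2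
  obtain ⟨a, ha, b, hb, rfl⟩ := h2
  have k1 := hf a (Finsupp.mem_support_iff.mp ha)
  have k2 := hg b (Finsupp.mem_support_iff.mp hb)
  omega

theorem Van.ofC (c : ℤ) : Van 0 (C c) := by
  intro j hj
  rw [C_apply] at hj
  by_cases h : j = 0
  · subst h; exact le_rfl
  · rw [if_neg h] at hj; exact absurd rfl hj

theorem Van.ofT (n : ℤ) : Van n (T n) := by
  intro j hj
  rw [T_apply] at hj
  by_cases h : n = j
  · subst h; exact le_rfl
  · rw [if_neg h] at hj; exact absurd rfl hj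

theorem Van.CT (c n : ℤ) {m : ℤ} (h : m ≤ n) : Van m (LaurentPolynomial.C c * LaurentPolynomial.T n) := by
  have := (Van.ofC c).mul (Van.ofT n)
  exact this.mono (by omega)

/-- division by `dd` -/
theorem Van.of_dd {k : ℤ} {q : ℤ[T;T⁻¹]} (h : Van k (dd * q)) : Van (k + 2) q := by
  classical
  by_contra hq
  unfold Van at hq
  push Not at hq
  obtain ⟨j, hj, hlt⟩ := hq
  -- the lowest exponent
  have hne : q.coeff.support.Nonempty := ⟨j, Finsupp.mem_support_iff.mpr hj⟩
  obtain ⟨j0, hj0, hmin⟩ := q.coeff.support.exists_min_image (fun x => x) hne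
  have h0 : q.coeff j0 ≠ 0 := Finsupp.mem_support_iff.mp hj0
  have hle : j0 ≤ j := hmin j (Finsupp.mem_support_iff.mpr hj)
  have hz : q.coeff (j0 - 2 - 2) = 0 := by
    by_contra h'
    have := hmin _ (Finsupp.mem_support_iff.mpr h')
    omega
  have h1 : (dd * q).coeff (j0 - 2) = - q.coeff j0 := by
    have : dd * q = -(T 2 * q) + -(T (-2) * q) := by
      unfold dd
      ring
    rw [this, AddMonoidAlgebra.coeff_add, Finsupp.add_apply, AddMonoidAlgebra.coeff_neg,
      AddMonoidAlgebra.coeff_neg, Finsupp.neg_apply, Finsupp.neg_apply, coeff_T_mul, coeff_T_mul, hz]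
    have e : j0 - 2 - -2 = j0 := by ring
    rw [e]
    ring
  have h2 := h (j0 - 2) (by rw [h1]; exact neg_ne_zero.2 h0)
  omega

/-! ### expansions -/

theorem E.congr {p : ℤ[T;T⁻¹]} {m a b c m' a' b' c' : ℤ} (h : E p m a b c) (hm : m = m')
    (ha : a = a') (hb : b = b') (hc : c = c') : E p m' a' b' c' := by
  subst hm ha hb hc
  exact h

theorem E.add {p q : ℤ[T;T⁻¹]} {m a b c a' b' c' : ℤ} (hp : E p m a b c) (hq : E q m a' b' c') :
    E (p + q) m (a + a') (b + b') (c + c') := by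
  unfold E at *
  have := hp.add hq
  convert this using 1
  simp only [map_add]
  ring

theorem E.neg {p : ℤ[T;T⁻¹]} {m a b c : ℤ} (hp : E p m a b c) : E (-p) m (-a) (-b) (-c) := by
  unfold E at *
  have := hp.neg
  convert this using 1
  simp only [map_neg]
  ring

theorem E.sub {p q : ℤ[T;T⁻¹]} {m a b c a' b' c' : ℤ} (hp : E p m a b c) (hq : E q m a' b' c') :
    E (p - q) m (a - a') (b - b') (c - c') := by
  have := hp.add hq.neg
  rw [← sub_eq_add_neg] at this
  exact this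

theorem E.van {p : ℤ[T;T⁻¹]} {m a b c : ℤ} (hp : E p m a b c) : Van m p := by
  unfold E at hp
  have h : p = (p - T m * (C a + C b * T 4 + C c * T 8)) +
    (C a * T m + C b * T (m + 4) + C c * T (m + 8)) := by
    rw [T_add, T_add]
    ring
  rw [h]
  refine (hp.mono (by omega)).add ((Van.CT _ _ le_rfl).add (Van.CT _ _ (by omega)) |>.add
    (Van.CT _ _ (by omega)))

theorem E.mul {p q : ℤ[T;T⁻¹]} {m n a b c a' b' c' : ℤ} (hp : E p m a b c) (hq : E q n a' b' c') :
    E (p * q) (m + n) (a * a') (a * b' + b * a') (a * c' + b * b' + c * a') := by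
  have vq := hq.van
  unfold E at *
  have h : p * q - T (m + n) * (C (a * a') + C (a * b' + b * a') * T 4 +
      C (a * c' + b * b' + c * a') * T 8) =
      (p - T m * (C a + C b * T 4 + C c * T 8)) * q +
      (C a * T m + C b * T (m + 4) + C c * T (m + 8)) *
        (q - T n * (C a' + C b' * T 4 + C c' * T 8)) +
      (C (b * c' + c * b') * T (m + n + 12) + C (c * c') * T (m + n + 16)) := by
    have e1 : (T (m + 4) : ℤ[T;T⁻¹]) = T m * T 4 := T_add _ _
    have e2 : (T (m + 8) : ℤ[T;T⁻¹]) = T m * (T 4 * T 4) := by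
      rw [← T_add, ← T_add]; congr 1
    have e3 : (T (m + n + 12) : ℤ[T;T⁻¹]) = T m * T n * (T 4 * T 4 * T 4) := by
      rw [← T_add, ← T_add, ← T_add, ← T_add]; congr 1
    have e4 : (T (m + n + 16) : ℤ[T;T⁻¹]) = T m * T n * (T 4 * T 4 * T 4 * T 4) := by
      rw [← T_add, ← T_add, ← T_add, ← T_add, ← T_add]; congr 1
    have e5 : (T (m + n) : ℤ[T;T⁻¹]) = T m * T n := T_add _ _
    have e6 : (T 8 : ℤ[T;T⁻¹]) = T 4 * T 4 := by
      rw [← T_add]; congr 1
    rw [e1, e2, e3, e4, e5, e6]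
    simp only [map_add, map_mul]
    ring
  rw [h]
  refine Van.add (Van.add ?_ ?_) ?_
  · exact (hp.mul vq).mono (by omega)
  · have h1 : Van m (C a * T m + C b * T (m + 4) + C c * T (m + 8)) :=
      ((Van.CT _ _ le_rfl).add (Van.CT _ _ (by omega))).add (Van.CT _ _ (by omega))
    exact (h1.mul hq).mono (by omega)
  · exact (Van.CT _ _ (by omega)).add (Van.CT _ _ (by omega))

theorem E.high {p : ℤ[T;T⁻¹]} {m : ℤ} (hp : Van (m + 12) p) : E p m 0 0 0 := by
  unfold E
  simpa using hp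

theorem E.shift4 {p : ℤ[T;T⁻¹]} {m n a b c : ℤ} (hp : E p n a b c) (h : n = m + 4) :
    E p m 0 a b := by
  subst h
  unfold E at *
  have e1 : p - T m * (C 0 + C a * T 4 + C b * T 8) =
      (p - T (m + 4) * (C a + C b * T 4 + C c * T 8)) + C c * T (m + 12) := by
    have e1 : (T (m + 4) : ℤ[T;T⁻¹]) = T m * T 4 := T_add _ _
    have e2 : (T (m + 12) : ℤ[T;T⁻¹]) = T m * T 4 * T 8 := by
      rw [← T_add, ← T_add]; congr 1; ring
    have e3 : (T 8 : ℤ[T;T⁻¹]) = T 4 * T 4 := by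
      rw [← T_add]; congr 1
    rw [e1, e2, e3, map_zero]
    ring
  rw [e1]
  exact (hp.mono (by omega)).add (Van.CT _ _ le_rfl)

theorem E.shift8 {p : ℤ[T;T⁻¹]} {m n a b c : ℤ} (hp : E p n a b c) (h : n = m + 8) :
    E p m 0 0 a := (hp.shift4 (m := m + 4) (by omega)).shift4 rfl

theorem E.far {p : ℤ[T;T⁻¹]} {m n a b c : ℤ} (hp : E p n a b c) (h : m + 12 ≤ n) :
    E p m 0 0 0 := E.high (hp.van.mono h)

theorem E.mono {ε m : ℤ} : E (C ε * T m) m ε 0 0 := by
  unfold E
  have : C ε * T m - T m * (C ε + C 0 * T 4 + C 0 * T 8) = 0 := by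
    rw [map_zero]
    ring
  rw [this]
  exact Van.zero

theorem E_dd : E dd (-2) (-1) (-1) 0 := by
  unfold E dd
  have : (-T 2 - T (-2) : ℤ[T;T⁻¹]) - T (-2) * (C (-1) + C (-1) * T 4 + C 0 * T 8) = 0 := by
    have e1 : (T 2 : ℤ[T;T⁻¹]) = T (-2) * T 4 := by
      rw [← T_add]; congr 1
    rw [e1, map_zero, map_neg, map_one]
    ring
  rw [this]
  exact Van.zero

theorem E_dd2 : E (dd ^ 2 - 1) (-4) 1 1 1 := by
  have h := E_dd.mul E_dd
  have h1 : E (1 : ℤ[T;T⁻¹]) 0 1 0 0 := by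
    have := E.mono (ε := 1) (m := 0)
    rwa [map_one, T_zero, one_mul] at this
  have h2 := (h.congr (m' := -4) (a' := 1) (b' := 2) (c' := 1) (by ring) (by ring) (by ring)
    (by ring)).sub (h1.shift4 (m := -4) (by norm_num))
  rw [pow_two]
  exact h2.congr rfl (by ring) (by ring) (by ring)

theorem E.div {q : ℤ[T;T⁻¹]} {m a b c : ℤ} (h : E (dd * q) m a b c) :
    E q (m + 2) (-a) (a - b) (b - a - c) := by
  unfold E at *
  have h1 : Van (m + 12) (dd * (q - T (m + 2) * (C (-a) + C (a - b) * T 4 + C (b - a - c) * T 8))) := by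
    have e : dd * (q - T (m + 2) * (C (-a) + C (a - b) * T 4 + C (b - a - c) * T 8)) =
        (dd * q - T m * (C a + C b * T 4 + C c * T 8)) + C (b - a - c) * T (m + 12) := by
      have e1 : (T (m + 12) : ℤ[T;T⁻¹]) = T m * (T 4 * T 4 * T 4) := by
        rw [← T_add, ← T_add, ← T_add]; congr 1
      have e2 : (T 8 : ℤ[T;T⁻¹]) = T 4 * T 4 := by
        rw [← T_add]; congr 1
      have e3 : dd * T (m + 2) = - (T m * (1 + T 4)) := by
        unfold dd
        rw [sub_mul, neg_mul, ← T_add, ← T_add, mul_add, ← T_add, mul_one]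
        have e4 : (2 : ℤ) + (m + 2) = m + 4 := by ring
        have e5 : (-2 : ℤ) + (m + 2) = m := by ring
        rw [e4, e5]
        ring
      rw [mul_sub, ← mul_assoc, e3, e1, e2]
      simp only [map_sub, map_neg]
      ring
    rw [e]
    exact h.add (Van.CT _ _ le_rfl)
  exact h1.of_dd.mono (by omega)

/-- the coefficients -/
theorem E.coeffs {p : ℤ[T;T⁻¹]} {m a b c : ℤ} (h : E p m a b c) :
    (∀ j, j < m → p.coeff j = 0) ∧ p.coeff m = a ∧ p.coeff (m + 4) = b ∧ p.coeff (m + 8) = c ∧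
      ∀ j, j < m + 12 → j ≠ m → j ≠ m + 4 → j ≠ m + 8 → p.coeff j = 0 := by
  have hv := h.van
  unfold E at h
  have key : ∀ j, j < m + 12 → p.coeff j = (C a * T m + C b * T (m + 4) + C c * T (m + 8) :
      ℤ[T;T⁻¹]).coeff j := by
    intro j hj
    have h1 : (p - T m * (C a + C b * T 4 + C c * T 8)).coeff j = 0 := by
      by_contra h'
      have := h j h'
      omega
    have h2 : p = (p - T m * (C a + C b * T 4 + C c * T 8)) +
      (C a * T m + C b * T (m + 4) + C c * T (m + 8)) := by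
      rw [T_add, T_add]
      ring
    rw [h2, AddMonoidAlgebra.coeff_add, Finsupp.add_apply, h1, zero_add]
  have hm : ∀ (x n j : ℤ), (C x * T n : ℤ[T;T⁻¹]).coeff j = if j = n then x else 0 := by
    intro x n j
    rw [Pool.Agent.H891R2.DS.D10.coeff_mul_T, C_apply]
    by_cases hj : j = n
    · subst hj
      simp
    · rw [if_neg hj, if_neg (by omega)]
  have key2 : ∀ j, j < m + 12 → p.coeff j = (if j = m then a else 0) +
      (if j = m + 4 then b else 0) + (if j = m + 8 then c else 0) := by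
    intro j hj
    rw [key j hj, AddMonoidAlgebra.coeff_add, Finsupp.add_apply, AddMonoidAlgebra.coeff_add,
      Finsupp.add_apply, hm, hm, hm]
  refine ⟨fun j hj => ?_, ?_, ?_, ?_, fun j hj h1 h2 h3 => ?_⟩
  · by_contra h'
    have := hv j h'
    omega
  · rw [key2 m (by omega), if_pos rfl, if_neg (by omega), if_neg (by omega)]
    ring
  · rw [key2 _ (by omega), if_neg (by omega), if_pos rfl, if_neg (by omega)]
    ring
  · rw [key2 _ (by omega), if_neg (by omega), if_neg (by omega), if_pos rfl]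
    ring
  · rw [key2 _ hj, if_neg h1, if_neg h2, if_neg h3]
    ring

theorem E.unique {p : ℤ[T;T⁻¹]} {m a b c m' a' b' c' : ℤ} (h : E p m a b c)
    (h' : E p m' a' b' c') (ha : a ≠ 0) (ha' : a' ≠ 0) : m = m' ∧ a = a' ∧ b = b' ∧ c = c' := by
  have h1 := h.coeffs
  have h2 := h'.coeffs
  have hm : m = m' := by
    rcases lt_trichotomy m m' with hlt | heq | hgt
    · exact absurd (h1.2.1.symm.trans (h2.1 m hlt)) ha
    · exact heq
    · exact absurd (h2.2.1.symm.trans (h1.1 m' hgt)) ha'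
  subst hm
  exact ⟨rfl, h1.2.1.symm.trans h2.2.1, h1.2.2.1.symm.trans h2.2.2.1,
    h1.2.2.2.1.symm.trans h2.2.2.2.1⟩

/-- the lowest coefficients of the powers of `dd` -/
theorem E_dd_pow (j : ℕ) : ∃ c : ℤ, E (dd ^ j) (-(2 * j)) ((-1) ^ j) ((-1) ^ j * j) ((-1) ^ j * c) ∧
    (j = 0 → c = 0) := by
  induction j with
  | zero =>
    refine ⟨0, ?_, fun _ => rfl⟩
    have := E.mono (ε := 1) (m := 0)
    rw [map_one, T_zero, one_mul] at this
    simpa using this
  | succ j ih =>
    obtain ⟨c, hc, _⟩ := ih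
    have h := hc.mul E_dd
    refine ⟨c + j, ?_, fun h0 => absurd h0 (Nat.succ_ne_zero j)⟩
    rw [pow_succ]
    refine h.congr ?_ ?_ ?_ ?_
    · push_cast
      ring
    · rw [pow_succ]
    · rw [pow_succ]
      push_cast
      ring
    · rw [pow_succ]
      ring

end Pool.Agent.N569.AB
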