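import Pool.Agent.N569.AB.Sem
import Pool.Agent.N569.AB.Exp

set_option autoImplicit false

namespace Pool.Agent.N569.AB

open Finset LaurentPolynomial Pool.Agent.H891R2.Jones Pool.Agent.H891R2.MT Pool.Agent.H891R2.RF
open Pool.Agent.R811.Abc

/-- the sign `(-1) ^ D` -/
def sg (D : ℤ) : ℤ := if Even D then 1 else -1

theorem sg_cases (D : ℤ) : sg D = 1 ∨ sg D = -1 := by
  unfold sg
  split_ifs <;> simp

theorem sg_succ (D : ℤ) : sg (D + 1) = - sg D := by
  unfold sg
  by_cases h : Even D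
  · rw [if_pos h, if_neg (by rw [Int.even_add_one]; exact not_not.2 h)]
  · rw [if_neg h, if_pos (by rw [Int.even_add_one]; exact h)]
    norm_num

theorem sg_natAbs (a : ℤ) : ((-1) ^ a.natAbs : ℤ) = sg a := by
  unfold sg
  by_cases h : Even a
  · rw [if_pos h]
    exact Even.neg_one_pow (Int.natAbs_even.2 h)
  · rw [if_neg h]
    exact Odd.neg_one_pow (Int.natAbs_odd.2 (Int.not_even_iff_odd.1 h))

/-- the expansions of the coordinates `x = α`, `y = α + d β` of the tangle of a tree -/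
def Node (D : ℤ) (k : ℕ) (x y : ℤ[T;T⁻¹]) : Prop :=
  ∃ m u b c b' c' : ℤ, (u = 1 ∨ u = -1) ∧ E x m u (u * b) (u * c) ∧
    E y (m - 4 * D) (sg D * u) (sg D * u * b') (sg D * u * c') ∧
    b ≤ -k ∧ (b = 0 → c = 0) ∧ b' ≤ 0 ∧ (b' = 0 → c' = -b)

theorem node_row (a : ℤ) : Node a 0 (T a) (C ((-1) ^ a.natAbs) * T (-3 * a)) := by
  refine ⟨a, 1, 0, 0, 0, 0, Or.inl rfl, ?_, ?_, by simp, fun _ => rfl, le_rfl, fun _ => by simp⟩
  · have := E.mono (ε := 1) (m := a)
    rw [map_one, one_mul] at this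
    exact this.congr rfl rfl (by ring) (by ring)
  · have := E.mono (ε := (-1) ^ a.natAbs) (m := -3 * a)
    exact this.congr (by ring) (by rw [sg_natAbs]; ring) (by ring) (by ring)

theorem node_kid {D : ℤ} {k : ℕ} {x y x' y' : ℤ[T;T⁻¹]} {τ : Bool} (h : Node D k x y)
    (h' : Kid τ x' y') : Node (D + if τ then 1 else 0) (k + 1) (x * x') (y * y') := by
  obtain ⟨m, u, b, c, b', c', hu, hx, hy, h1, h2, h3, h4⟩ := h
  obtain ⟨n, v, d, e, d', e', hv, hx', hy', g1, g2, g3⟩ := h'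
  refine ⟨m + n, u * v, b + d, c + b * d + e, b' + d', c' + b' * d' + e', ?_, ?_, ?_, ?_, ?_, ?_, ?_⟩
  · rcases hu with rfl | rfl <;> rcases hv with rfl | rfl <;> simp
  · exact (hx.mul hx').congr rfl rfl (by ring) (by ring)
  · have h5 := hy.mul hy'
    cases τ
    · simp only [Bool.false_eq_true, if_false] at h5 ⊢
      exact h5.congr (by ring) (by rw [add_zero]; ring) (by rw [add_zero]; ring)
        (by rw [add_zero]; ring)
    · simp only [if_true] at h5 ⊢
      exact h5.congr (by ring) (by rw [sg_succ]; ring) (by rw [sg_succ]; ring)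
        (by rw [sg_succ]; ring)
  · push_cast
    omega
  · intro h6
    exfalso
    omega
  · omega
  · intro h6
    have h7 : b' = 0 := by omega
    have h8 : d' = 0 := by omega
    obtain ⟨g4, g5⟩ := g3 h8
    rw [h4 h7, h7, h8, g4, g5]
    ring

/-- a quarter turn, `D ≥ 2` -/
theorem rot_high {D : ℤ} {k : ℕ} {x y z : ℤ[T;T⁻¹]} (h : Node D k x y) (hD : 2 ≤ D)
    (hz : y = x + dd * z) : Kid false z (z + dd * x) := by
  obtain ⟨m, u, b, c, b', c', hu, hx, hy, h1, h2, h3, h4⟩ := h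
  have hk : (0 : ℤ) ≤ k := Int.natCast_nonneg k
  have hb : b ≤ 0 := by omega
  -- `dd * z = y - x`
  have e1 : dd * z = y - x := by rw [hz]; ring
  have e2 : dd * (z + dd * x) = y + (dd ^ 2 - 1) * x := by rw [hz]; ring
  have hdx : E ((dd ^ 2 - 1) * x) (m - 4) u (u * (b + 1)) (u * (c + b + 1)) :=
    (E_dd2.mul hx).congr (by ring) (by ring) (by ring) (by ring)
  rcases eq_or_lt_of_le hD with hD2 | hD3
  · -- D = 2
    subst hD2
    have hs : sg 2 = 1 := by unfold sg; rw [if_pos (by decide)]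
    rw [hs] at hy
    have f1 := hy.sub (hx.shift8 (m := m - 4 * 2) (by ring))
    rw [← e1] at f1
    have f2 := hy.add (hdx.shift4 (m := m - 4 * 2) (by ring))
    rw [← e2] at f2
    refine ⟨m - 4 * 2 + 2, -u, b' - 1, c' - b', b', c' + b - b' + 1, ?_, ?_, ?_, ?_, ?_, ?_⟩
    · omega
    · exact f1.div.congr rfl (by ring) (by ring) (by ring)
    · simp only [Bool.false_eq_true, if_false]
      exact f2.div.congr (by ring) (by ring) (by ring) (by ring)
    · omega
    · exact h3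
    · intro h5
      have := h4 h5
      omega
  · -- D ≥ 3
    obtain ⟨t, ht⟩ : ∃ t : ℤ, E ((dd ^ 2 - 1) * x) (m - 4 * D) 0 0 t := by
      rcases eq_or_lt_of_le (show 3 ≤ D by omega) with h5 | h5
      · subst h5
        exact ⟨_, hdx.shift8 (by ring)⟩
      · exact ⟨0, hdx.far (by omega)⟩
    have f1 := hy.sub (hx.far (m := m - 4 * D) (by omega))
    rw [← e1] at f1
    have f2 := hy.add ht
    rw [← e2] at f2
    have hs : sg D * u = 1 ∨ sg D * u = -1 := by
      rcases sg_cases D with h5 | h5 <;> rcases hu with h6 | h6 <;> rw [h5, h6] <;> simp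
    obtain ⟨w, hw⟩ : ∃ w : ℤ, w = sg D * u := ⟨_, rfl⟩
    rw [← hw] at hs f1 f2
    have hww : w * w = 1 := by rcases hs with rfl | rfl <;> norm_num
    refine ⟨m - 4 * D + 2, -w, b' - 1, c' - b' + 1, b' - 1, c' + w * t - b' + 1, ?_, ?_, ?_, ?_, ?_, ?_⟩
    · omega
    · exact f1.div.congr rfl (by ring) (by ring) (by ring)
    · simp only [Bool.false_eq_true, if_false]
      refine f2.div.congr (by ring) (by ring) (by ring) ?_
      linear_combination t * hww
    · omega
    · omega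
    · intro h5
      omega

/-- a quarter turn, `D ≤ -1` -/
theorem rot_low {D : ℤ} {k : ℕ} {x y z : ℤ[T;T⁻¹]} (h : Node D k x y) (hD : D ≤ -1)
    (hk' : 1 ≤ k ∨ D ≤ -2) (hz : y = x + dd * z) : Kid true z (z + dd * x) := by
  obtain ⟨m, u, b, c, b', c', hu, hx, hy, h1, h2, h3, h4⟩ := h
  have hk : (0 : ℤ) ≤ k := Int.natCast_nonneg k
  have hb : b ≤ 0 := by omega
  have e1 : dd * z = y - x := by rw [hz]; ring
  have e2 : dd * (z + dd * x) = (dd ^ 2 - 1) * x + y := by rw [hz]; ring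
  have hdx : E ((dd ^ 2 - 1) * x) (m - 4) u (u * (b + 1)) (u * (c + b + 1)) :=
    (E_dd2.mul hx).congr (by ring) (by ring) (by ring) (by ring)
  rcases eq_or_lt_of_le hD with hD1 | hD2
  · -- D = -1
    subst hD1
    have hs : sg (-1) = -1 := by unfold sg; rw [if_neg (by decide)]
    rw [hs] at hy
    have f1 := (hy.shift4 (m := m) (by ring)).sub hx
    rw [← e1] at f1
    have f2 := hdx.add (hy.shift8 (m := m - 4) (by ring))
    rw [← e2] at f2
    have hk1 : 1 ≤ k := by omega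
    refine ⟨m + 2, u, b, c + b' - b, b, c, ?_, ?_, ?_, ?_, ?_, ?_⟩
    · omega
    · exact f1.div.congr rfl (by ring) (by ring) (by ring)
    · simp only [if_true]
      exact f2.div.congr (by ring) (by ring) (by ring) (by ring)
    · omega
    · exact hb
    · intro h5
      omega
  · -- D ≤ -2
    obtain ⟨t, ht⟩ : ∃ t : ℤ, E y m 0 0 t := by
      rcases eq_or_lt_of_le (show D ≤ -2 by omega) with h5 | h5
      · subst h5
        exact ⟨_, hy.shift8 (by ring)⟩
      · exact ⟨0, hy.far (by omega)⟩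
    have f1 := ht.sub hx
    rw [← e1] at f1
    have f2 := hdx.add (hy.far (m := m - 4) (by omega))
    rw [← e2] at f2
    have huu : u * u = 1 := by rcases hu with rfl | rfl <;> norm_num
    refine ⟨m + 2, u, b - 1, c - b + 1 - u * t, b, c + 1, ?_, ?_, ?_, ?_, ?_, ?_⟩
    · omega
    · refine f1.div.congr rfl (by ring) (by ring) ?_
      linear_combination t * huu
    · simp only [if_true]
      exact f2.div.congr (by ring) (by ring) (by ring) (by ring)
    · omega
    · exact hb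
    · intro h5
      have := h2 h5
      omega

/-- the lowest coefficients of the bracket or of the normalised bracket -/
def Low (p : ℤ[T;T⁻¹]) : Prop :=
  ∃ m u b c : ℤ, (u = 1 ∨ u = -1) ∧ E p m u (u * b) (u * c) ∧ (b ≤ -1 ∨ (b = 0 ∧ c = 1))

theorem Kid.low {τ : Bool} {x y : ℤ[T;T⁻¹]} (h : Kid τ x y) : Low y := by
  obtain ⟨m, u, b, c, b', c', hu, hx, hy, h1, h2, h3⟩ := h
  refine ⟨_, (if τ then -1 else 1) * u, b', c', ?_, hy, ?_⟩
  · cases τ <;> rcases hu with rfl | rfl <;> simp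
  · rcases eq_or_lt_of_le h2 with h4 | h4
    · exact Or.inr ⟨h4, (h3 h4).2⟩
    · left; omega

/-- the root, `D = 0` -/
theorem zero_low {k : ℕ} {x y z : ℤ[T;T⁻¹]} (h : Node 0 k x y) (hk : 2 ≤ k)
    (hz : y = x + dd * z) : Low (z + dd * x) := by
  obtain ⟨m, u, b, c, b', c', hu, hx, hy, h1, h2, h3, h4⟩ := h
  have e2 : dd * (z + dd * x) = (dd ^ 2 - 1) * x + y := by rw [hz]; ring
  have hdx : E ((dd ^ 2 - 1) * x) (m - 4) u (u * (b + 1)) (u * (c + b + 1)) :=
    (E_dd2.mul hx).congr (by ring) (by ring) (by ring) (by ring)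
  have hs : sg 0 = 1 := by unfold sg; rw [if_pos (by decide)]
  rw [hs] at hy
  have f2 := hdx.add (hy.shift4 (m := m - 4) (by ring))
  rw [← e2] at f2
  refine ⟨m - 4 + 2, -u, b + 1, c + b', ?_, ?_, ?_⟩
  · omega
  · exact f2.div.congr rfl (by ring) (by ring) (by ring)
  · left
    omega

/-- the coordinates of the tangle of a regular tree -/
theorem main_tree (t : Tree) (ht : t.Regular) : ∃ v : ℤ[T;T⁻¹] × ℤ[T;T⁻¹],
    Ten t.tangle v.1 v.2 ∧ Node t.deg t.kids v.1 (v.1 + dd * v.2) := by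
  induction t with
  | row a =>
    obtain ⟨v, h1, h2, h3⟩ := Ten_row a
    refine ⟨v, h1, ?_⟩
    rw [h3, h2]
    exact node_row a
  | graft v c ihv ihc =>
    obtain ⟨hv, hc, hd⟩ := ht
    obtain ⟨p, p1, p2⟩ := ihv hv
    obtain ⟨q, q1, q2⟩ := ihc hc
    refine ⟨hs p (q.2, q.1), Ten_hsum _ _ _ _ _ _ p1 (Ten_rot _ _ _ q1), ?_⟩
    rw [hs_snd]
    show Node (v.deg + if c.deg < 0 then 1 else 0) (v.kids + 1) (p.1 * q.2)
      ((p.1 + dd * p.2) * (q.2 + dd * q.1))
    rcases hd with hd | ⟨hd, hd2⟩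
    · have h1 := node_kid p2 (rot_high q2 hd rfl)
      rw [if_neg (by omega)]
      simpa using h1
    · have h1 := node_kid p2 (rot_low q2 hd hd2 rfl)
      rw [if_pos (by omega)]
      simpa using h1
  | insert v S τ ihv =>
    obtain ⟨hv, hS, hK⟩ := ht
    obtain ⟨p, p1, p2⟩ := ihv hv
    refine ⟨hs p (alpha S, beta S), Ten_hsum _ _ _ _ _ _ p1 (Ten_tangle S hS), ?_⟩
    rw [hs_snd]
    rw [brV_self S hS] at hK
    exact node_kid p2 hK

theorem low_tree (t : Tree) (ht : t.Regular) (hr : t.RootOk) : Low t.link.std.bracket := by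
  obtain ⟨v, h1, h2⟩ := main_tree t ht
  have h3 : t.link.std.bracket = v.2 + dd * v.1 := by
    have := brH_of_Ten _ _ _ h1
    unfold brH at this
    rw [add_comm]
    exact this
  rw [h3]
  rcases hr with hr | ⟨hr, hk⟩ | ⟨hr, hk⟩
  · exact (rot_high h2 hr rfl).low
  · rw [hr] at h2
    exact zero_low h2 hk rfl
  · exact (rot_low h2 hr hk rfl).low

theorem Low.smul {p : ℤ[T;T⁻¹]} (h : Low p) (ε n : ℤ) (hε : ε = 1 ∨ ε = -1) :
    Low (C ε * T n * p) := by
  obtain ⟨m, u, b, c, hu, hp, hb⟩ := h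
  refine ⟨n + m, ε * u, b, c, ?_, ?_, hb⟩
  · rcases hu with rfl | rfl <;> rcases hε with rfl | rfl <;> simp
  · exact (E.mono.mul hp).congr rfl rfl (by ring) (by ring)

theorem Low.fPoly {P : Type} [Fintype P] [DecidableEq P] [Nonempty P] (D : Diagram P)
    (U : UDiagram P) (h : Orients D U) (hU : Low U.std.bracket) : Low D.fPoly := by
  rw [← T6.bracket_orients D U h] at hU
  have h1 := hU.smul (if Even D.writhe then 1 else -1) (-3 * D.writhe) (by
    by_cases hw : Even D.writhe <;> simp [hw])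
  unfold Diagram.fPoly
  by_cases hw : Even D.writhe
  · simp only [hw, if_true, map_one] at h1 ⊢
    exact h1
  · simp only [hw, if_false, map_neg, map_one] at h1 ⊢
    exact h1

/-- these polynomials are not (up to a unit) powers of `dd` -/
theorem Low.ne {p : ℤ[T;T⁻¹]} (h : Low p) (ε n : ℤ) (hε : ε = 1 ∨ ε = -1) (j : ℕ) :
    p ≠ C ε * T n * dd ^ j := by
  intro hp
  obtain ⟨m, u, b, c, hu, hE, hb⟩ := h
  obtain ⟨c', h1, h2⟩ := E_dd_pow j
  have h3 := E.mono (ε := ε) (m := n) |>.mul h1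
  rw [← hp] at h3
  have hs : ((-1 : ℤ) ^ j = 1 ∨ (-1 : ℤ) ^ j = -1) := neg_one_pow_eq_or ℤ j
  have hu0 : u ≠ 0 := by rcases hu with rfl | rfl <;> norm_num
  have he0 : ε * (-1) ^ j ≠ 0 := by
    rcases hs with h | h <;> rcases hε with rfl | rfl <;> rw [h] <;> norm_num
  obtain ⟨-, g1, g2, g3⟩ := hE.unique h3 hu0 he0
  have g4 : b = j := by
    apply mul_left_cancel₀ hu0
    rw [g2, g1]
    ring
  have g5 : (0 : ℤ) ≤ j := Int.natCast_nonneg j
  rcases hb with hb | ⟨hb, hc⟩
  · omega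
  · have hj : j = 0 := by omega
    subst hj
    rw [h2 rfl] at g3
    subst hc
    apply hu0
    linear_combination g3

end Pool.Agent.N569.AB
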