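import Pool.Agent.N569.AB.Main

set_option autoImplicit false

namespace Pool.Agent.N569.AB

open Finset LaurentPolynomial Pool.Agent.H891R2.Jones Pool.Agent.H891R2.MT Pool.Agent.H891R2.RF
open Pool.Agent.R811.Abc

namespace Tree

/-- no tangles are inserted: a weighted tree -/
def Plain : Tree → Prop
  | .row _ => True
  | .graft v c => Plain v ∧ Plain c
  | .insert _ _ _ => False

/-- the tree with the opposite weights (its link is the mirror image) -/
def mirror : Tree → Tree
  | .row a => .row (-a)
  | .graft v c => .graft (mirror v) (mirror c)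
  | .insert v S τ => .insert (mirror v) S τ

/-- the weight of the root -/
def wt : Tree → ℤ
  | .row a => a
  | .graft v _ => wt v
  | .insert v _ _ => wt v

/-- every vertex different from the root has a weight which is at least `2`, or at most `-k - 1` and
at most `-2`, where `k` is the number of its children -/
def Heavy : Tree → Prop
  | .row _ => True
  | .graft v c => Heavy v ∧ Heavy c ∧ (2 ≤ wt c ∨ (wt c ≤ -(kids c : ℤ) - 1 ∧ wt c ≤ -2))
  | .insert _ _ _ => False

theorem deg_bounds (t : Tree) (h : t.Plain) : t.wt ≤ t.deg ∧ t.deg ≤ t.wt + t.kids := by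
  induction t with
  | row a => simp [wt, deg, kids]
  | graft v c ihv ihc =>
    have := ihv h.1
    simp only [wt, deg, kids]
    push_cast
    constructor <;> split_ifs <;> omega
  | insert v S τ ih => exact absurd h (fun h => h)

theorem Heavy.plain (t : Tree) (h : t.Heavy) : t.Plain := by
  induction t with
  | row a => trivial
  | graft v c ihv ihc => exact ⟨ihv h.1, ihc h.2.1⟩
  | insert v S τ ih => exact absurd h (fun h => h)

theorem Heavy.regular (t : Tree) (h : t.Heavy) : t.Regular := by
  induction t with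
  | row a => trivial
  | graft v c ihv ihc =>
    refine ⟨ihv h.1, ihc h.2.1, ?_⟩
    have h1 := deg_bounds c (Heavy.plain c h.2.1)
    rcases h.2.2 with h2 | ⟨h2, h3⟩
    · left; omega
    · right
      refine ⟨by omega, ?_⟩
      by_cases h4 : 1 ≤ kids c
      · exact Or.inl h4
      · right; omega
  | insert v S τ ih => exact absurd h (fun h => h)

end Tree

theorem invert_dd : invert dd = dd := by
  unfold dd
  rw [map_sub, map_neg, invert_T, invert_T]
  norm_num
  ring

theorem ten_inv_rowN (s : Bool) (n : ℕ) : ∃ v : ℤ[T;T⁻¹] × ℤ[T;T⁻¹], Ten (rowN s n) v.1 v.2 ∧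
    Ten (rowN (!s) n) (invert v.1) (invert v.2) := by
  induction n with
  | zero =>
    refine ⟨(1, 0), Ten_plain, ?_⟩
    simp only [map_one, map_zero]
    exact Ten_plain
  | succ n ih =>
    obtain ⟨v, h1, h2⟩ := ih
    refine ⟨hs v (T (if s then 1 else -1), T (if s then -1 else 1)),
      Ten_hsum _ _ _ _ _ _ h1 (Ten_cross s), ?_⟩
    have h3 := Ten_hsum _ _ _ _ _ _ h2 (Ten_cross (!s))
    unfold hs
    simp only [map_mul, map_add, invert_dd, invert_T]
    have e1 : -(if s then 1 else -1 : ℤ) = if (!s) then 1 else -1 := by cases s <;> rfl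
    have e2 : -(if s then -1 else 1 : ℤ) = if (!s) then -1 else 1 := by cases s <;> rfl
    rw [e1, e2]
    exact h3

theorem ten_inv_row (a : ℤ) : ∃ v : ℤ[T;T⁻¹] × ℤ[T;T⁻¹], Ten (row a) v.1 v.2 ∧
    Ten (row (-a)) (invert v.1) (invert v.2) := by
  by_cases h : a = 0
  · subst h
    refine ⟨(1, 0), Ten_plain, ?_⟩
    simp only [map_one, map_zero]
    exact Ten_plain
  · obtain ⟨v, h1, h2⟩ := ten_inv_rowN (decide (0 ≤ a)) a.natAbs
    refine ⟨v, h1, ?_⟩
    have e : row (-a) = rowN (!decide (0 ≤ a)) a.natAbs := by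
      unfold row
      rw [Int.natAbs_neg]
      congr 1
      by_cases h0 : 0 ≤ a
      · have : ¬ (0 ≤ -a) := by omega
        simp [h0]
        omega
      · simp [h0]
        omega
    rw [e]
    exact h2

theorem ten_inv (t : Tree) (ht : t.Plain) : ∃ v : ℤ[T;T⁻¹] × ℤ[T;T⁻¹],
    Ten t.tangle v.1 v.2 ∧ Ten t.mirror.tangle (invert v.1) (invert v.2) := by
  induction t with
  | row a => exact ten_inv_row a
  | graft v c ihv ihc =>
    obtain ⟨p, p1, p2⟩ := ihv ht.1
    obtain ⟨q, q1, q2⟩ := ihc ht.2
    refine ⟨hs p (q.2, q.1), Ten_hsum _ _ _ _ _ _ p1 (Ten_rot _ _ _ q1), ?_⟩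
    have h3 := Ten_hsum _ _ _ _ _ _ p2 (Ten_rot _ _ _ q2)
    unfold hs
    simp only [map_mul, map_add, invert_dd]
    exact h3
  | insert v S τ ih => exact absurd ht (fun h => h)

theorem bracket_inv (t : Tree) (ht : t.Plain) :
    t.mirror.link.std.bracket = invert (t.link.std.bracket) := by
  obtain ⟨v, h1, h2⟩ := ten_inv t ht
  have h3 := brH_of_Ten _ _ _ h1
  have h4 := brH_of_Ten _ _ _ h2
  unfold brH at h3 h4
  unfold Tree.link
  rw [h3, h4, map_add, map_mul, invert_dd]

theorem invert_invert (p : ℤ[T;T⁻¹]) : invert (invert p) = p := by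
  have := (invert (R := ℤ)).symm_apply_apply p
  simpa using this

/-- both ends -/
theorem not_unlink (t : Tree) (D : Diagram t.tangle.P) (hD : Orients D t.link)
    (h : (t.Regular ∧ t.RootOk) ∨ (t.Plain ∧ t.mirror.Regular ∧ t.mirror.RootOk))
    (ε n : ℤ) (hε : ε = 1 ∨ ε = -1) (j : ℕ) : D.fPoly ≠ C ε * T n * dd ^ j := by
  haveI : Nonempty t.tangle.P := ⟨t.tangle.corner false false⟩
  rcases h with ⟨h1, h2⟩ | ⟨h0, h1, h2⟩
  · exact (Low.fPoly D t.link hD (low_tree t h1 h2)).ne ε n hε j
  · intro hp
    have h3 := low_tree _ h1 h2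
    rw [bracket_inv t h0, ← T6.bracket_orients D t.link hD] at h3
    -- the bracket of `D`
    have h4 : ∃ ε' n' : ℤ, (ε' = 1 ∨ ε' = -1) ∧ D.bracket = C ε' * T n' * dd ^ j := by
      have h5 : (T (3 * D.writhe) : ℤ[T;T⁻¹]) * T (-3 * D.writhe) = 1 := by
        rw [← T_add]
        have : 3 * D.writhe + -3 * D.writhe = 0 := by ring
        rw [this, T_zero]
      unfold Diagram.fPoly at hp
      by_cases hw : Even D.writhe
      · rw [if_pos hw] at hp
        refine ⟨ε, 3 * D.writhe + n, hε, ?_⟩
        rw [T_add]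
        calc D.bracket = (T (3 * D.writhe) * T (-3 * D.writhe)) * D.bracket := by rw [h5, one_mul]
          _ = T (3 * D.writhe) * (1 * T (-3 * D.writhe) * D.bracket) := by ring
          _ = _ := by rw [hp]; ring
      · rw [if_neg hw] at hp
        refine ⟨-ε, 3 * D.writhe + n, by omega, ?_⟩
        rw [T_add, map_neg]
        calc D.bracket = (T (3 * D.writhe) * T (-3 * D.writhe)) * D.bracket := by rw [h5, one_mul]
          _ = -(T (3 * D.writhe) * (-1 * T (-3 * D.writhe) * D.bracket)) := by ring
          _ = _ := by rw [hp]; ring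
    obtain ⟨ε', n', hε', h6⟩ := h4
    apply h3.ne ε' (-n') hε' j
    rw [h6, map_mul, map_mul, map_pow, invert_dd, invert_T, invert_C]

end Pool.Agent.N569.AB
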