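import Pool.Agent.N569.AB.Defs
import Pool.Agent.R811.Abc.Plain

set_option autoImplicit false

namespace Pool.Agent.N569.AB

open Finset LaurentPolynomial Pool.Agent.H891R2.Jones Pool.Agent.H891R2.MT Pool.Agent.H891R2.RF
open Pool.Agent.R811.Abc
open Pool.Agent.H891R2.RF.R1 (K Zc Zc_eq ind_and sum_ind_eq sum4)

/-- the tensor of the tangle `S` is `a` times two horizontal strands plus `b` times two vertical
strands -/
def Ten (S : Outer4) (a b : ℤ[T;T⁻¹]) : Prop :=
  ∀ (N : ℕ) (hN : 3 ≤ N) (G : Fin N → Fin N → Fin N → Fin N → ℂ),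
    ∑ u : S.P → Fin N, K (Ar N) S u * G (u (S.corner false false)) (u (S.corner false true))
        (u (S.corner true false)) (u (S.corner true true)) =
      ev N hN a * (∑ p, ∑ q, G p p q q) + ev N hN b * (∑ p, ∑ q, G p q p q)

theorem Ten_tangle (S : Outer4) (hS : IsTangle S) : Ten S (alpha S) (beta S) := by
  intro N hN G
  rw [tensor S hS (Ar_ne N hN), ev_alpha, ev_beta]

theorem ind_sym {N : ℕ} (p q : Fin N) : (ind (p = q) : ℂ) = ind (q = p) := ind_congr eq_comm

theorem Ten_plain : Ten plain 1 0 := by
  intro N hN G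
  simp only [K_plain]
  rw [map_one, map_zero, one_mul, zero_mul, add_zero]
  have h := sum4 (S := Fin N) (fun p q r t => ind (p = q) * ind (r = t) * G p q r t)
  change ∑ x : Bool × Bool → Fin N, _ = _ at h
  have h2 : ∑ u : plain.P → Fin N, ind (u (false, false) = u (false, true)) *
      ind (u (true, false) = u (true, true)) * G (u (plain.corner false false))
        (u (plain.corner false true)) (u (plain.corner true false)) (u (plain.corner true true)) =
      ∑ p, ∑ q, ∑ r, ∑ t, ind (p = q) * ind (r = t) * G p q r t := h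
  rw [h2]
  refine Finset.sum_congr rfl fun p _ => ?_
  have h3 : ∀ q : Fin N, ∑ r : Fin N, ∑ t : Fin N, ind (p = q) * ind (r = t) * G p q r t =
      ind (p = q) * ∑ r : Fin N, G p q r r := by
    intro q
    rw [Finset.mul_sum]
    refine Finset.sum_congr rfl fun r _ => ?_
    have : ∀ t : Fin N, ind (p = q) * ind (r = t) * G p q r t =
        ind (r = t) * (ind (p = q) * G p q r t) := fun t => by ring
    simp only [this, sum_ind_eq]
  simp only [h3, sum_ind_eq]

theorem Ten_cross (s : Bool) : Ten (cross s) (T (if s then 1 else -1)) (T (if s then -1 else 1)) := by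
  intro N hN G
  have hA := Ar_ne N hN
  rw [ev_T, ev_T]
  generalize Ar N = A at hA
  have hK : ∀ u : (cross s).P → Fin N, K A (cross s) u =
      A ^ (if s then 1 else -1 : ℤ) * (ind (u (false, false) = u (false, true)) *
        ind (u (true, false) = u (true, true))) +
      A ^ (if s then -1 else 1 : ℤ) * (ind (u (false, false) = u (true, false)) *
        ind (u (false, true) = u (true, true))) := by
    intro u
    unfold K cross
    cases s
    · simp only [Bool.false_eq_true, if_false, List.map_cons, List.map_nil, List.prod_cons,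
        List.prod_nil, mul_one, crossW, ind_and, zpow_neg, zpow_one]
      rw [ind_sym (u (true, true)) (u (true, false)), ind_sym (u (true, false)) (u (false, false))]
      ring
    · simp only [if_true, List.map_cons, List.map_nil, List.prod_cons,
        List.prod_nil, mul_one, crossW, ind_and, zpow_neg, zpow_one]
      rw [ind_sym (u (true, true)) (u (true, false)), ind_sym (u (true, false)) (u (false, false))]
      ring
  simp only [hK]
  have h := sum4 (S := Fin N) (fun p q r t =>
      (A ^ (if s then 1 else -1 : ℤ) * (ind (p = q) * ind (r = t)) +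
      A ^ (if s then -1 else 1 : ℤ) * (ind (p = r) * ind (q = t))) * G p q r t)
  have h2 : ∑ u : (cross s).P → Fin N,
      (A ^ (if s then 1 else -1 : ℤ) * (ind (u (false, false) = u (false, true)) *
        ind (u (true, false) = u (true, true))) +
      A ^ (if s then -1 else 1 : ℤ) * (ind (u (false, false) = u (true, false)) *
        ind (u (false, true) = u (true, true)))) * G (u ((cross s).corner false false))
        (u ((cross s).corner false true)) (u ((cross s).corner true false))
        (u ((cross s).corner true true)) =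
      ∑ p, ∑ q, ∑ r, ∑ t, (A ^ (if s then 1 else -1 : ℤ) * (ind (p = q) * ind (r = t)) +
      A ^ (if s then -1 else 1 : ℤ) * (ind (p = r) * ind (q = t))) * G p q r t := h
  rw [h2]
  generalize A ^ (if s then 1 else -1 : ℤ) = a
  generalize A ^ (if s then -1 else 1 : ℤ) = b
  have h3 : ∀ p q r : Fin N, ∑ t : Fin N, (a * (ind (p = q) * ind (r = t)) +
      b * (ind (p = r) * ind (q = t))) * G p q r t =
      ind (p = q) * (a * G p q r r) + ind (p = r) * (b * G p q r q) := by
    intro p q r
    have : ∀ t : Fin N, (a * (ind (p = q) * ind (r = t)) +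
      b * (ind (p = r) * ind (q = t))) * G p q r t =
      ind (r = t) * (ind (p = q) * (a * G p q r t)) + ind (q = t) * (ind (p = r) * (b * G p q r t)) :=
      fun t => by ring
    simp only [this, Finset.sum_add_distrib, sum_ind_eq]
  simp only [h3, Finset.sum_add_distrib, sum_ind_eq, Finset.mul_sum]
  congr 1
  refine Finset.sum_congr rfl fun p _ => ?_
  have h4 : ∀ q : Fin N, ∑ r : Fin N, ind (p = q) * (a * G p q r r) =
      ind (p = q) * ∑ r : Fin N, (a * G p q r r) := fun q => by rw [Finset.mul_sum]
  simp only [h4, sum_ind_eq]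

theorem K_hsum (A : ℂ) {N : ℕ} (W R : Outer4) (u : W.P → Fin N) (x : R.P → Fin N) :
    K A (hsum W R) (Sum.elim u x) = K A W u * K A R x *
      (ind (u (W.corner false true) = x (R.corner false false)) *
        ind (u (W.corner true true) = x (R.corner true false))) := by
  unfold K hsum
  dsimp only
  rw [List.map_append, List.prod_append, List.map_append, List.prod_append, List.map_append,
    List.prod_append, List.map_map, List.map_map, List.map_map, List.map_map]
  have h1 : (arcW (Sum.elim u x) ∘ Prod.map Sum.inl Sum.inl : W.P × W.P → ℂ) = arcW u := by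
    funext y; rfl
  have h2 : (arcW (Sum.elim u x) ∘ Prod.map Sum.inr Sum.inr : R.P × R.P → ℂ) = arcW x := by
    funext y; rfl
  rw [h1, h2]
  have h3 : ((fun y : (W.P ⊕ R.P) × (W.P ⊕ R.P) × (W.P ⊕ R.P) × (W.P ⊕ R.P) =>
      crossW A (Sum.elim u x) ⟨y.1, y.2.1, y.2.2.1, y.2.2.2, true, true⟩) ∘
      Prod.map Sum.inl (Prod.map Sum.inl (Prod.map Sum.inl Sum.inl)) : W.P × W.P × W.P × W.P → ℂ) =
      (fun y => crossW A u ⟨y.1, y.2.1, y.2.2.1, y.2.2.2, true, true⟩) := by
    funext y; rfl
  have h4 : ((fun y : (W.P ⊕ R.P) × (W.P ⊕ R.P) × (W.P ⊕ R.P) × (W.P ⊕ R.P) =>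
      crossW A (Sum.elim u x) ⟨y.1, y.2.1, y.2.2.1, y.2.2.2, true, true⟩) ∘
      Prod.map Sum.inr (Prod.map Sum.inr (Prod.map Sum.inr Sum.inr)) : R.P × R.P × R.P × R.P → ℂ) =
      (fun y => crossW A x ⟨y.1, y.2.1, y.2.2.1, y.2.2.2, true, true⟩) := by
    funext y; rfl
  rw [h3, h4]
  simp only [List.map_cons, List.map_nil, List.prod_cons, List.prod_nil, mul_one, arcW,
    Sum.elim_inl, Sum.elim_inr]
  ring

theorem sum_hsum {N : ℕ} (W R : Outer4) (F : ((hsum W R).P → Fin N) → ℂ) :
    ∑ c : (hsum W R).P → Fin N, F c =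
      ∑ x : R.P → Fin N, ∑ u : W.P → Fin N, F (Sum.elim u x) := by
  have h := Fintype.sum_equiv (Equiv.sumArrowEquivProdArrow W.P R.P (Fin N)).symm
    (fun z : (W.P → Fin N) × (R.P → Fin N) => F (Sum.elim z.1 z.2)) (fun c => F c) (by
      intro z
      rfl)
  rw [Fintype.sum_prod_type, Finset.sum_comm] at h
  exact h.symm

theorem Ten_hsum (S R : Outer4) (a₁ b₁ a₂ b₂ : ℤ[T;T⁻¹]) (hS : Ten S a₁ b₁) (hR : Ten R a₂ b₂) :
    Ten (hsum S R) (a₁ * a₂) (a₁ * b₂ + b₁ * a₂ + dd * (b₁ * b₂)) := by
  intro N hN G
  rw [sum_hsum]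
  have h1 : ∀ x : R.P → Fin N, ∑ u : S.P → Fin N, K (Ar N) (hsum S R) (Sum.elim u x) *
      G ((Sum.elim u x : (hsum S R).P → Fin N) ((hsum S R).corner false false))
        ((Sum.elim u x : (hsum S R).P → Fin N) ((hsum S R).corner false true))
        ((Sum.elim u x : (hsum S R).P → Fin N) ((hsum S R).corner true false))
        ((Sum.elim u x : (hsum S R).P → Fin N) ((hsum S R).corner true true)) =
      K (Ar N) R x * (ev N hN a₁ * G (x (R.corner false false)) (x (R.corner false true))
        (x (R.corner true false)) (x (R.corner true true)) +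
        ev N hN b₁ * (ind (x (R.corner false false) = x (R.corner true false)) *
          ∑ p, G p (x (R.corner false true)) p (x (R.corner true true)))) := by
    intro x
    have h2 := hS N hN (fun a b c d => ind (x (R.corner false false) = b) *
      (ind (x (R.corner true false) = d) * (K (Ar N) R x * G a (x (R.corner false true)) c
        (x (R.corner true true)))))
    have h3 : ∀ u : S.P → Fin N, K (Ar N) (hsum S R) (Sum.elim u x) *
      G ((Sum.elim u x : (hsum S R).P → Fin N) ((hsum S R).corner false false))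
        ((Sum.elim u x : (hsum S R).P → Fin N) ((hsum S R).corner false true))
        ((Sum.elim u x : (hsum S R).P → Fin N) ((hsum S R).corner true false))
        ((Sum.elim u x : (hsum S R).P → Fin N) ((hsum S R).corner true true)) =
      K (Ar N) S u * (ind (x (R.corner false false) = u (S.corner false true)) *
      (ind (x (R.corner true false) = u (S.corner true true)) * (K (Ar N) R x *
        G (u (S.corner false false)) (x (R.corner false true)) (u (S.corner true false))
        (x (R.corner true true))))) := by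
      intro u
      rw [K_hsum, ind_sym (u (S.corner false true)), ind_sym (u (S.corner true true))]
      simp only [hsum, Bool.false_eq_true, if_false, if_true, Sum.elim_inl, Sum.elim_inr]
      ring
    rw [Finset.sum_congr rfl fun u _ => h3 u, h2]
    have h4 : ∑ p : Fin N, ∑ q : Fin N, (ind (x (R.corner false false) = p) *
      (ind (x (R.corner true false) = q) * (K (Ar N) R x * G p (x (R.corner false true)) q
        (x (R.corner true true))))) = K (Ar N) R x * G (x (R.corner false false))
        (x (R.corner false true)) (x (R.corner true false)) (x (R.corner true true)) := by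
      simp only [← Finset.mul_sum, sum_ind_eq]
    have h5 : ∑ p : Fin N, ∑ q : Fin N, (ind (x (R.corner false false) = q) *
      (ind (x (R.corner true false) = q) * (K (Ar N) R x * G p (x (R.corner false true)) p
        (x (R.corner true true))))) = K (Ar N) R x *
        (ind (x (R.corner false false) = x (R.corner true false)) *
          ∑ p, G p (x (R.corner false true)) p (x (R.corner true true))) := by
      simp only [sum_ind_eq]
      rw [ind_sym (x (R.corner true false)), ← Finset.mul_sum, ← Finset.mul_sum]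
      ring
    rw [h4, h5]
    ring
  rw [Finset.sum_congr rfl fun x _ => h1 x]
  simp only [mul_add, Finset.sum_add_distrib]
  have h6 := hR N hN (fun a b c d => ev N hN a₁ * G a b c d)
  have h7 := hR N hN (fun a b c d => ev N hN b₁ * (ind (a = c) * ∑ p, G p b p d))
  rw [h6, h7]
  have h8 : ∑ p : Fin N, ∑ q : Fin N, ev N hN b₁ * (ind (p = q) * ∑ r, G r p r q) =
      ev N hN b₁ * ∑ p, ∑ q, G p q p q := by
    simp only [← Finset.mul_sum, sum_ind_eq]
    rw [Finset.sum_comm]
  have h9 : ∑ p : Fin N, ∑ q : Fin N, ev N hN b₁ * (ind (p = p) * ∑ r, G r q r q) =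
      ev N hN b₁ * (N * ∑ p, ∑ q, G p q p q) := by
    have : ∀ p q : Fin N, ev N hN b₁ * (ind (p = p) * ∑ r, G r q r q) =
        ev N hN b₁ * ∑ r, G r q r q := by
      intro p q
      rw [ind_pos (rfl : p = p), one_mul]
    rw [Finset.sum_congr rfl fun p _ => Finset.sum_congr rfl fun q _ => this p q]
    simp only [← Finset.mul_sum, Finset.sum_const, Finset.card_univ, Fintype.card_fin,
      nsmul_eq_mul]
    rw [Finset.sum_comm]
  rw [h8, h9]
  simp only [← Finset.mul_sum]
  rw [map_add, map_add, map_mul, map_mul, map_mul, map_mul, map_mul, ev_dd]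
  ring

theorem Ten_rot (S : Outer4) (a b : ℤ[T;T⁻¹]) (hS : Ten S a b) : Ten (rot S) b a := by
  intro N hN G
  have h := hS N hN (fun p q r t => G r p t q)
  have h2 : ∑ u : (rot S).P → Fin N, K (Ar N) (rot S) u * G (u ((rot S).corner false false))
      (u ((rot S).corner false true)) (u ((rot S).corner true false))
      (u ((rot S).corner true true)) = ∑ u : S.P → Fin N, K (Ar N) S u *
      G (u (S.corner true false)) (u (S.corner false false)) (u (S.corner true true))
      (u (S.corner false true)) := rfl
  rw [h2, h, Finset.sum_comm (f := fun p q => G q p q p)]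
  ring

theorem brH_of_Ten (S : Outer4) (a b : ℤ[T;T⁻¹]) (hS : Ten S a b) : brH S = dd * a + b := by
  refine T6.eq_of_ev _ _ (fun N hN => ?_)
  apply mul_left_cancel₀ (castN N hN)
  rw [ev_brH, Zc_eq]
  simp only [Bool.false_eq_true, if_false]
  have h := hS N hN (fun p q r t => ind (p = q) * ind (r = t))
  rw [h, map_add, map_mul, ev_dd]
  have h1 : ∑ p : Fin N, ∑ q : Fin N, (ind (p = p) * ind (q = q) : ℂ) = N * N := by
    simp [ind]
  have h2 : ∑ p : Fin N, ∑ q : Fin N, (ind (p = q) * ind (p = q) : ℂ) = N := by
    simp only [sum_ind_eq]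
    simp [ind]
  rw [h1, h2]
  ring

/-- the coordinates of the sum -/
noncomputable def hs (x y : ℤ[T;T⁻¹] × ℤ[T;T⁻¹]) : ℤ[T;T⁻¹] × ℤ[T;T⁻¹] :=
  (x.1 * y.1, x.1 * y.2 + x.2 * y.1 + dd * (x.2 * y.2))

theorem hs_snd (x y : ℤ[T;T⁻¹] × ℤ[T;T⁻¹]) :
    (hs x y).1 + dd * (hs x y).2 = (x.1 + dd * x.2) * (y.1 + dd * y.2) := by
  unfold hs
  ring

/-- the coordinates of a row -/
theorem Ten_rowN (s : Bool) (n : ℕ) : ∃ v : ℤ[T;T⁻¹] × ℤ[T;T⁻¹], Ten (rowN s n) v.1 v.2 ∧
    v.1 = T ((if s then 1 else -1) * n) ∧
    v.1 + dd * v.2 = C ((-1) ^ n) * T ((if s then -3 else 3) * n) := by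
  induction n with
  | zero =>
    refine ⟨(1, 0), Ten_plain, ?_, ?_⟩
    · simp
    · simp
  | succ n ih =>
    obtain ⟨v, h1, h2, h3⟩ := ih
    refine ⟨hs v (T (if s then 1 else -1), T (if s then -1 else 1)),
      Ten_hsum _ _ _ _ _ _ h1 (Ten_cross s), ?_, ?_⟩
    · show v.1 * T (if s then 1 else -1) = _
      rw [h2, ← T_add]
      congr 1
      push_cast
      ring
    · rw [hs_snd, h3]
      have h4 : (T (if s then 1 else -1) : ℤ[T;T⁻¹]) + dd * T (if s then -1 else 1) =
          - T (if s then -3 else 3) := by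
        unfold dd
        cases s
        · simp only [Bool.false_eq_true, if_false, sub_mul, neg_mul, ← T_add]
          norm_num
        · simp only [if_true, sub_mul, neg_mul, ← T_add]
          norm_num
          ring
      show C ((-1) ^ n) * T ((if s then -3 else 3) * n) *
        (T (if s then 1 else -1) + dd * T (if s then -1 else 1)) = _
      rw [h4, pow_succ, map_mul, map_neg, map_one]
      have h5 : (T ((if s then -3 else 3) * ((n + 1 : ℕ) : ℤ)) : ℤ[T;T⁻¹]) =
          T ((if s then -3 else 3) * n) * T (if s then -3 else 3) := by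
        rw [← T_add]
        congr 1
        push_cast
        ring
      rw [h5]
      ring

theorem Ten_row (a : ℤ) : ∃ v : ℤ[T;T⁻¹] × ℤ[T;T⁻¹], Ten (row a) v.1 v.2 ∧
    v.1 = T a ∧ v.1 + dd * v.2 = C ((-1) ^ a.natAbs) * T (-3 * a) := by
  obtain ⟨v, h1, h2, h3⟩ := Ten_rowN (decide (0 ≤ a)) a.natAbs
  refine ⟨v, h1, ?_, ?_⟩
  · rw [h2]
    congr 1
    by_cases h : 0 ≤ a
    · simp [h]
    · simp only [h, decide_false, Bool.false_eq_true, if_false]
      omega
  · rw [h3]
    congr 2
    by_cases h : 0 ≤ a
    · simp [h]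
    · simp only [h, decide_false, Bool.false_eq_true, if_false]
      omega

end Pool.Agent.N569.AB
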